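import Pool.Agent.Helper74.BS.St

/-! Module CO (project BS of helper74): completeness of the call structure with vectors. -/

set_option autoImplicit false

namespace Pool.Agent.Helper9.BS

open Pool.Agent.Helper73.DC Pool.Agent.Helper74.BS

private theorem reduce (hFO : StFO) {K L : ℕ} {f : Fo} (hf : f ≠ Fo.nil) (hw : wd f ≤ L)
    {y v : ℕ} {lf' cl' : ℕ → ℕ} {rs' : ℕ → ℕ → ℕ}
    (h : ∀ j, ∃ c0 ≤ cn K j f, EvK lf' cl' rs' (L * K + 1) j y v (max 1 c0)) :
    ∀ j, ∃ c ≤ cn K j f, EvK lf' cl' rs' (L * K + 1) j y v c := by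
  obtain ⟨-, -, -, -, h5, -, h7, -, -⟩ := hFO
  intro j
  induction j with
  | zero =>
    obtain ⟨c0, hc0, he⟩ := h 0
    exact ⟨max 1 c0, max_le (h7 K f hf) hc0, he⟩
  | succ j ih =>
    by_cases h0 : cn K (j + 1) f = 0
    · obtain ⟨c, hc, he⟩ := ih
      have h1 := h5 K j f h0
      have h2 : wd f * K ≤ L * K := Nat.mul_le_mul_right K hw
      exact ⟨0, Nat.zero_le _, EvK.up j y v c he (by omega)⟩
    · obtain ⟨c0, hc0, he⟩ := h (j + 1)
      exact ⟨max 1 c0, max_le (by omega) hc0, he⟩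

theorem hCO (hFO : StFO) (hVE : StVE) : Pool.Agent.Helper74.BS.StCO := by
  intro lf cl tn rs gd K m L X0 hK hcl hrs hlf hg1 hg2 hg3
  have hFO' := hFO
  obtain ⟨f1, -, -, f4, -, -, -, -, -⟩ := hFO'
  obtain ⟨v1, v2, v3, v4, v5, v6, v7, v8, -⟩ := hVE
  have hV : 0 < (K + 1) ^ m := Nat.pow_pos (Nat.succ_pos K)
  generalize hVd : (K + 1) ^ m = V at *
  have hdiv : ∀ x a : ℕ, a < V → (x * V + a) / V = x := by
    intro x a ha
    rw [mul_comm, Nat.mul_add_div hV, Nat.div_eq_of_lt ha, Nat.add_zero]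
  have hmod : ∀ x a : ℕ, a < V → (x * V + a) % V = a := by
    intro x a ha
    rw [mul_comm, Nat.mul_add_mod, Nat.mod_eq_of_lt ha]
  -- the vectors are smaller than V
  have w1 : ∀ f : Fo, vec K m f < V := fun f => by rw [← hVd]; exact v1 K m f
  have w2 : ∀ a b : ℕ, addv K m a b < V := fun a b => by rw [← hVd]; exact v2 K m a b
  have w7 : ∀ a, a < V → addv K m a 0 = a ∧ addv K m 0 a = a := fun a ha =>
    v7 K m a (by rw [hVd]; exact ha)
  suffices H : ∀ x r f, EvF lf cl rs tn x r f → r < X0 ∧ (gd x → x < X0 → ∀ j a, a < V →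
      ∃ c ≤ cn K j f, EvK (lfA V X0 lf) (clA V cl rs tn) (rsA K m V X0 rs tn) (L * K + 1) j
        (x * V + a) (r * V + addv K m a (vec K m f)) c) by
    intro x r f he hgx hx j a ha
    exact (H x r f he).2 hgx hx j a ha
  intro x r f he
  induction he with
  | leaf x r hl =>
    refine ⟨?_, ?_⟩
    · have := hlf x
      omega
    · intro _ hx j a ha
      refine ⟨0, Nat.zero_le _, ?_⟩
      apply EvK.leaf
      unfold lfA
      rw [hdiv x a ha, hmod x a ha, if_neg (not_le.2 hx), hl, if_neg (Nat.succ_ne_zero r), v8,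
        (w7 a ha).1]
      simp
  | tree x r f h0 ht hE ih =>
    obtain ⟨hr, ih⟩ := ih
    refine ⟨hr, ?_⟩
    intro hgx hx
    have hg' := hg1 x hgx h0 ht
    intro j a ha
    have hE' : EvF lf cl rs tn x r (Fo.nd f Fo.nil) := EvF.tree x r f h0 ht hE
    have hw := hg3 x r (Fo.nd f Fo.nil) hgx hE'
    refine reduce hFO (by simp) hw (fun j => ?_) j
    obtain ⟨c, hc, hk⟩ := ih hg' (hrs x 0) j 0 hV
    refine ⟨c + 0, ?_, ?_⟩
    · have := f4 K j f Fo.nil
      omega
    · refine EvK.node j (x * V + a) (r * V + vec K m f) c _ 0 ?_ ?_ ?_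
      · unfold lfA
        rw [hdiv x a ha, if_neg (not_le.2 hx), if_pos h0]
      · unfold clA
        rw [hdiv x a ha, if_neg ht]
        rw [(w7 _ (w1 f)).2, Nat.add_zero] at hk
        exact hk
      · unfold rsA
        rw [hdiv x a ha, hmod x a ha, if_neg ht, hdiv r _ (w1 f), hmod r _ (w1 f),
          min_eq_left hr.le, ← v4 K m f hK]
        apply EvK.leaf
        unfold lfA
        rw [hdiv _ _ (w2 _ _), hmod _ _ (w2 _ _), if_pos (Nat.le_add_right _ _),
          Nat.add_sub_cancel_left, min_eq_left hr.le]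
  | node x r1 r2 g1 g2 h0 ht hE1 hE2 ih1 ih2 =>
    obtain ⟨hr1, ih1⟩ := ih1
    obtain ⟨hr2, ih2⟩ := ih2
    refine ⟨hr2, ?_⟩
    intro hgx hx
    obtain ⟨hgc, hgr⟩ := hg2 x hgx h0 ht
    obtain ⟨hn, hgr⟩ := hgr r1 g1 hE1
    intro j a ha
    have hE' : EvF lf cl rs tn x r2 (app g1 g2) := EvF.node x r1 r2 g1 g2 h0 ht hE1 hE2
    have hw := hg3 x r2 (app g1 g2) hgx hE'
    have hnil : app g1 g2 ≠ Fo.nil := by
      cases g1 with
      | nil => exact absurd rfl hn
      | nd a b => simp [app]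
    refine reduce hFO hnil hw (fun j => ?_) j
    obtain ⟨c1, hc1, hk1⟩ := ih1 hgc (hcl x) j a ha
    obtain ⟨c2, hc2, hk2⟩ := ih2 hgr (hrs x r1) j _ (w2 a (vec K m g1))
    refine ⟨c1 + c2, ?_, ?_⟩
    · rw [f1]
      omega
    · refine EvK.node j (x * V + a) (r1 * V + addv K m a (vec K m g1)) c1 _ c2 ?_ ?_ ?_
      · unfold lfA
        rw [hdiv x a ha, if_neg (not_le.2 hx), if_pos h0]
      · unfold clA
        rw [hdiv x a ha, if_pos ht, hmod x a ha]
        exact hk1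
      · unfold rsA
        rw [hdiv x a ha, if_pos ht, hdiv r1 _ (w2 _ _), hmod r1 _ (w2 _ _), v5, ← v6]
        exact hk2

end Pool.Agent.Helper9.BS
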