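import Pool.Agent.Helper9.BS.St

/-!
# Project BS: the Baire argument
-/

set_option autoImplicit false

open scoped NNReal

noncomputable section

namespace Pool.Agent.Helper9.BS

/-- the isometric semigroups are dense -/
theorem dense_iso
    (hDI : ∀ (H : Type) [NormedAddCommGroup H] [InnerProductSpace ℂ H] [CompleteSpace H],
      ¬ FiniteDimensional ℂ H → ∀ (T : CSG H) (N : ℕ) (u : Fin N → H),
      ∃ V : CSG H, (∀ t x, ‖V.T t x‖ = ‖x‖) ∧
        ∀ t i j, inner ℂ (V.T t (u i)) (u j) = inner ℂ (T.T t (u i)) (u j))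
    (hDM : StDM) {H : Type} [NormedAddCommGroup H] [InnerProductSpace ℂ H] [CompleteSpace H]
    (hinf : ¬ FiniteDimensional ℂ H) (x : ℕ → H) (hx : ∀ j, x j ≠ 0) (T : CSG H) (ε : ℝ)
    (hε : 0 < ε) : ∃ V : CSG H, (∀ t y, ‖V.T t y‖ = ‖y‖) ∧ dd x T V < ε := by
  obtain ⟨-, -, -, -, -, h6⟩ := hDM H x hx
  obtain ⟨N, δ, hδ, hN⟩ := h6 ε hε
  obtain ⟨V, hV, hV2⟩ := hDI H hinf T N (fun i => x i)
  refine ⟨V, hV, hN T V fun t _ i hi j hj => ?_⟩
  have h := hV2 t ⟨i, hi⟩ ⟨j, hj⟩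
  simp only at h
  rw [inner_sub_left, h, sub_self, norm_zero]
  exact hδ.le

theorem baire
    (hDI : ∀ (H : Type) [NormedAddCommGroup H] [InnerProductSpace ℂ H] [CompleteSpace H],
      ¬ FiniteDimensional ℂ H → ∀ (T : CSG H) (N : ℕ) (u : Fin N → H),
      ∃ V : CSG H, (∀ t x, ‖V.T t x‖ = ‖x‖) ∧
        ∀ t i j, inner ℂ (V.T t (u i)) (u j) = inner ℂ (T.T t (u i)) (u j))
    (hDM : StDM) (hLS : StLS) (hLC : StLC) {H : Type} [NormedAddCommGroup H]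
    [InnerProductSpace ℂ H] [CompleteSpace H] (hinf : ¬ FiniteDimensional ℂ H) (x : ℕ → H)
    (hx : ∀ j, x j ≠ 0) (hd : DenseRange x) (U : ℕ → Set (CSG H)) (hU : ∀ m, IsOpenD x (U m))
    (hUd : ∀ m, IsDenseD x (U m)) : IsDenseD x (⋂ m, U m) := by
  intro T₀ ε₀ hε₀
  obtain ⟨h1, h2, h3, h4, h5, h6⟩ := hDM H x hx
  -- one step: from (V, r) to (V', r') with closed ball in `U m` and in the old closed ball
  have step : ∀ (m : ℕ) (V : CSG H) (r : ℝ), 0 < r → ∃ (V' : CSG H) (r' : ℝ),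
      (∀ t y, ‖V'.T t y‖ = ‖y‖) ∧ 0 < r' ∧ dd x V V' < r ∧ dd x V V' + r' ≤ r ∧
      (∀ S, dd x V' S ≤ r' → S ∈ U m) ∧
      (∀ W : CSG H, (∀ t y, ‖W.T t y‖ = ‖y‖) → dd x V' W ≤ r' →
        ∀ i ≤ m, ∀ t : ℝ≥0, t ≤ (m : ℝ≥0) → ‖V'.T t (x i) - W.T t (x i)‖ ≤ (1 / 2 : ℝ) ^ m) := by
    intro m V r hr
    obtain ⟨S, hS, hS1⟩ := hUd m V r hr
    obtain ⟨ε, hε, hSε⟩ := hU m S hS
    obtain ⟨V', hV', hV'1⟩ := dense_iso hDI hDM hinf x hx S (min (ε / 2) (r - dd x V S))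
      (lt_min (by linarith) (by linarith))
    have ha : dd x S V' < ε / 2 := lt_of_lt_of_le hV'1 (min_le_left _ _)
    have hb : dd x S V' < r - dd x V S := lt_of_lt_of_le hV'1 (min_le_right _ _)
    have hc : dd x V V' < r := by
      have := h3 V S V'
      linarith
    obtain ⟨r₁, hr₁, hr₁2⟩ := hLS hDM H x hx hd V' hV' m ((1 / 2 : ℝ) ^ m) (by positivity)
    refine ⟨V', min (min (ε / 4) (r - dd x V V')) (r₁ / 2), hV', ?_, hc, ?_, ?_, ?_⟩
    · exact lt_min (lt_min (by linarith) (by linarith)) (by linarith)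
    · have : min (min (ε / 4) (r - dd x V V')) (r₁ / 2) ≤ r - dd x V V' :=
        (min_le_left _ _).trans (min_le_right _ _)
      linarith
    · intro R hR
      apply hSε
      have e1 : dd x V' R ≤ ε / 4 := hR.trans ((min_le_left _ _).trans (min_le_left _ _))
      have := h3 S V' R
      linarith
    · intro W hW hW2
      apply hr₁2 W hW
      have : dd x V' W ≤ r₁ / 2 := hW2.trans (min_le_right _ _)
      linarith
  choose! Vn rn q1 q2 q3 q4 q5 q6 using step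
  -- the sequence
  have hε₁ : 0 < ε₀ / 2 := by linarith
  let F : ℕ → CSG H × ℝ := fun m => Nat.rec (Vn 0 T₀ (ε₀ / 2), rn 0 T₀ (ε₀ / 2))
    (fun k p => (Vn (k + 1) p.1 p.2, rn (k + 1) p.1 p.2)) m
  have F0 : F 0 = (Vn 0 T₀ (ε₀ / 2), rn 0 T₀ (ε₀ / 2)) := rfl
  have FS : ∀ k, F (k + 1) = (Vn (k + 1) (F k).1 (F k).2, rn (k + 1) (F k).1 (F k).2) :=
    fun k => rfl
  have Fpos : ∀ k, 0 < (F k).2 := by
    intro k
    induction k with
    | zero => rw [F0]; exact q2 0 T₀ (ε₀ / 2) hε₁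
    | succ k ih => rw [FS]; exact q2 (k + 1) _ _ ih
  have Fiso : ∀ k t y, ‖((F k).1).T t y‖ = ‖y‖ := by
    intro k
    cases k with
    | zero => rw [F0]; exact q1 0 T₀ (ε₀ / 2) hε₁
    | succ k => rw [FS]; exact q1 (k + 1) _ _ (Fpos k)
  have Fball : ∀ k S, dd x (F k).1 S ≤ (F k).2 → S ∈ U k := by
    intro k
    cases k with
    | zero => rw [F0]; exact q5 0 T₀ (ε₀ / 2) hε₁
    | succ k => rw [FS]; exact q5 (k + 1) _ _ (Fpos k)
  have Fnear : ∀ k, ∀ W : CSG H, (∀ t y, ‖W.T t y‖ = ‖y‖) → dd x (F k).1 W ≤ (F k).2 →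
      ∀ i ≤ k, ∀ t : ℝ≥0, t ≤ (k : ℝ≥0) →
      ‖((F k).1).T t (x i) - W.T t (x i)‖ ≤ (1 / 2 : ℝ) ^ k := by
    intro k
    cases k with
    | zero => rw [F0]; exact q6 0 T₀ (ε₀ / 2) hε₁
    | succ k => rw [FS]; exact q6 (k + 1) _ _ (Fpos k)
  have Fstep : ∀ k, dd x (F k).1 (F (k + 1)).1 + (F (k + 1)).2 ≤ (F k).2 := by
    intro k
    rw [FS]
    exact q4 (k + 1) _ _ (Fpos k)
  have Fdist : ∀ k l, dd x (F k).1 (F (k + l)).1 + (F (k + l)).2 ≤ (F k).2 := by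
    intro k l
    induction l with
    | zero => rw [Nat.add_zero, h4, zero_add]
    | succ l ih =>
      have e1 := Fstep (k + l)
      have e2 := h3 (F k).1 (F (k + l)).1 (F (k + l + 1)).1
      rw [← Nat.add_assoc]
      linarith
  obtain ⟨W, hW, hWlim⟩ := hLC H x hd (fun k => (F k).1) Fiso (by
    intro k i hi t ht
    refine Fnear k _ (Fiso (k + 1)) ?_ i hi t ht
    have := Fstep k
    have := Fpos (k + 1)
    linarith)
  -- convergence in `dd`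
  have hconv : ∀ ε : ℝ, 0 < ε → ∃ M : ℕ, ∀ m ≥ M, dd x (F m).1 W < ε := by
    intro ε hε
    obtain ⟨N, δ, hδ, hN⟩ := h6 ε hε
    have hch : ∀ i : ℕ, ∃ M : ℕ, ∀ j < N, ∀ m ≥ M, ∀ t : ℝ≥0, t ≤ (N : ℝ≥0) →
        ‖inner ℂ (((F m).1).T t (x i) - W.T t (x i)) (x j)‖ ≤ δ := by
      intro i
      obtain ⟨C, hC⟩ : ∃ C : ℝ, ∀ j < N, ‖x j‖ ≤ C :=
        ⟨∑ j ∈ Finset.range N, ‖x j‖, fun j hj =>
          Finset.single_le_sum (f := fun j => ‖x j‖) (fun _ _ => norm_nonneg _)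
            (Finset.mem_range.2 hj)⟩
      obtain ⟨M, hM⟩ := hWlim i N (δ / (|C| + 1)) (by positivity)
      refine ⟨M, fun j hj m hm t ht => (norm_inner_le_norm _ _).trans ?_⟩
      have e1 := hM m hm t ht
      have e2 : ‖x j‖ ≤ |C| + 1 := (hC j hj).trans ((le_abs_self C).trans (by linarith))
      calc ‖((F m).1).T t (x i) - W.T t (x i)‖ * ‖x j‖ ≤ δ / (|C| + 1) * (|C| + 1) :=
            mul_le_mul e1 e2 (norm_nonneg _) (by positivity)
        _ = δ := by field_simp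
    choose Mi hMi using hch
    refine ⟨∑ i ∈ Finset.range N, Mi i, fun m hm => hN _ _ fun t ht i hi j hj => ?_⟩
    refine hMi i j hj m (le_trans ?_ hm) t ht
    exact Finset.single_le_sum (f := Mi) (fun _ _ => Nat.zero_le _) (Finset.mem_range.2 hi)
  have hfin : ∀ k, dd x (F k).1 W ≤ (F k).2 := by
    intro k
    apply le_of_forall_pos_le_add
    intro ε hε
    obtain ⟨M, hM⟩ := hconv ε hε
    have e1 := hM (k + M) (by omega)
    have e2 := Fdist k M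
    have e3 := h3 (F k).1 (F (k + M)).1 W
    have e4 := Fpos (k + M)
    linarith
  refine ⟨W, Set.mem_iInter.2 fun m => Fball m W (hfin m), ?_⟩
  have e1 := hfin 0
  have e2 := q4 0 T₀ (ε₀ / 2) hε₁
  have e3 := h3 T₀ (F 0).1 W
  rw [F0] at e1 e3
  simp only at e1 e3
  linarith

end Pool.Agent.Helper9.BS
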