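import Mathlib

/-!
# Contraction `C_0`-semigroups (MP_eb8260_an)
-/

set_option autoImplicit false

open scoped NNReal

noncomputable section

namespace Pool.Agent.Helper9.BS

/-- A contraction `C_0`-semigroup on `H`: linear operators `T t`, `t ≥ 0`, with `‖T t‖ ≤ 1`, `T 0 = I`,
`T (s + t) = T s (T t)` and `t ↦ T t x` continuous for every `x`. -/
structure CSG (H : Type) [NormedAddCommGroup H] [InnerProductSpace ℂ H] where
  /-- the operators -/
  T : ℝ≥0 → H → H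
  map_add : ∀ t x y, T t (x + y) = T t x + T t y
  map_smul : ∀ t (c : ℂ) x, T t (c • x) = c • T t x
  contr : ∀ t x, ‖T t x‖ ≤ ‖x‖
  zero : ∀ x, T 0 x = x
  add : ∀ s t x, T (s + t) x = T s (T t x)
  cont : ∀ x, Continuous fun t => T t x

variable {H : Type} [NormedAddCommGroup H] [InnerProductSpace ℂ H]

/-- The metric `d(T,S)` of the problem, for the sequence `x 0, x 1, ...` (the index `p = (n,i,j)`,
`n, i, j ≥ 0`, stands for the summand `(n+1, i+1, j+1)` of the problem). -/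
def dd (x : ℕ → H) (T S : CSG H) : ℝ :=
  ∑' p : ℕ × ℕ × ℕ, (1 / 2 : ℝ) ^ (p.1 + p.2.1 + p.2.2 + 3) *
    ((⨆ t : {t : ℝ≥0 // t ≤ (p.1 : ℝ≥0) + 1},
      ‖inner ℂ (T.T t (x p.2.1) - S.T t (x p.2.1)) (x p.2.2)‖) / (‖x p.2.1‖ * ‖x p.2.2‖))

/-- `U` is open for the metric `dd x`. -/
def IsOpenD (x : ℕ → H) (U : Set (CSG H)) : Prop :=
  ∀ T ∈ U, ∃ ε : ℝ, 0 < ε ∧ ∀ S, dd x T S < ε → S ∈ U

/-- `U` is dense for the metric `dd x`. -/
def IsDenseD (x : ℕ → H) (U : Set (CSG H)) : Prop :=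
  ∀ T, ∀ ε : ℝ, 0 < ε → ∃ S ∈ U, dd x T S < ε

end Pool.Agent.Helper9.BS
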