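import Pool.Agent.Helper9.BS.Defs

/-!
# Project BS (MP_eb8260_an): the space of contraction `C_0`-semigroups is a Baire space

THEOREM.  `H` separable infinite-dimensional complex Hilbert space.  The space of contraction
`C_0`-semigroups on `H` with the metric `d` of weak convergence locally uniformly in `t` is Baire.

Proof.  The isometric semigroups are dense (dilation, transported back to `H` with a finite
dimensional subspace kept fixed), and on them `d` induces the topology of strong convergence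
locally uniform in `t`, for which they are complete.

Every `Prop` below is one module `BS MODULE <name>` (theorem `h<name> : St<name>`); modules that
use the statements of other modules take them as hypotheses.
-/

set_option autoImplicit false

open scoped NNReal

noncomputable section

namespace Pool.Agent.Helper9.BS

/-- MODULE EXT (100 lines).  Isometric extension.  Let `A = Finsupp.linearCombination ℂ e`,
`A' = Finsupp.linearCombination ℂ e'` on `X →₀ ℂ`.  The Gram hypothesis gives `‖A f‖ = ‖A' f‖`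
(both squares are the double sum `∑ ∑ conj (f x) * f y * inner (e x) (e y)`), so `A' f` depends
only on `A f`: there is a linear isometry `L₀` from the span `M` (the range of `A`) to `H` with
`L₀ (e x) = e' x`.  `M` is dense in its closure and `H` is complete, so `L₀` extends to a
continuous linear map on the closure (`ContinuousLinearMap.extend` or `LinearMap.extend...`), which
is an isometry by density. -/
def StEXT : Prop := ∀ (X K H : Type) [NormedAddCommGroup K] [InnerProductSpace ℂ K]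
  [NormedAddCommGroup H] [InnerProductSpace ℂ H] [CompleteSpace H] (e : X → K) (e' : X → H),
  (∀ x y, inner ℂ (e x) (e y) = inner ℂ (e' x) (e' y)) →
  ∃ L : (Submodule.span ℂ (Set.range e)).topologicalClosure →ₗᵢ[ℂ] H,
    ∀ x (hx : e x ∈ (Submodule.span ℂ (Set.range e)).topologicalClosure), L ⟨e x, hx⟩ = e' x

/-- MODULE GNS (60 lines).  Moore's theorem, from `Mathlib.Analysis.InnerProductSpace.Reproducing`:
take `V = ℂ` and the matrix `M : Matrix X X (ℂ →L[ℂ] ℂ)`, `M y x = κ x y • 1` up to the conventions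
(`RKHS.kernel_inner`: `inner (kernel H x y v) w = inner (kerFun H y v) (kerFun H x w)`), positive
semidefinite by `RKHS.posSemidef_tfae`; `K = RKHS.OfKernel M` and `e x = RKHS.kerFun K x 1`
(use `RKHS.OfKernel.kernel_ofKernel`).  If the conventions give `κ y x` instead of `κ x y` use the
conjugate matrix. -/
def StGNS : Prop := ∀ (X : Type) (κ : X → X → ℂ), (∀ x y, κ y x = (starRingEnd ℂ) (κ x y)) →
  (∀ f : X →₀ ℂ, 0 ≤ (f.sum fun x a => f.sum fun y b => (starRingEnd ℂ) a * b * κ x y).re) →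
  ∃ (K : Type) (_ : NormedAddCommGroup K) (_ : InnerProductSpace ℂ K) (_ : CompleteSpace K)
    (e : X → K), ∀ x y, inner ℂ (e x) (e y) = κ x y

/-- MODULE POS (80 lines).  Prove by `Finset.induction_on_min` on `S` the stronger statement: for
all `m` with `m ≤ s` for all `s ∈ S`,
`‖∑ s ∈ S, T (s - m) (h s)‖ ^ 2 ≤ re (∑ s ∈ S, ∑ t ∈ S, inner (T (s - t) (h s)) (T (t - s) (h t)))`.
Step `insert a S`, `a < s` for all `s ∈ S` : let `G = ∑ s ∈ S, T (s - a) (h s)`.  The new terms are
`inner (h a) (h a)` and, for `s ∈ S`, `inner (h a) (T (s - a) (h s))` and its conjugate (as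
`a - s = 0`, `T 0 = id`), so the new sum is `(old sum) + ‖h a‖^2 + 2 re inner (h a) G`, at least
`‖G‖^2 + ‖h a‖^2 + 2 re inner (h a) G = ‖h a + G‖^2` by the induction hypothesis with `m = a`.
And `∑ s ∈ insert a S, T (s - m) (h s) = T (a - m) (h a + G)` (`(a - m) + (s - a) = s - m`), of norm
at most `‖h a + G‖`. -/
def StPOS : Prop := ∀ (H : Type) [NormedAddCommGroup H] [InnerProductSpace ℂ H] (T : CSG H)
  (S : Finset ℝ≥0) (h : ℝ≥0 → H),
  0 ≤ (∑ s ∈ S, ∑ t ∈ S, inner ℂ (T.T (s - t) (h s)) (T.T (t - s) (h t))).re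

/-- MODULE POF (60 lines).  Apply POS with `S` = the set of first components of the support of `f`
and `h s = ∑ i, f (s, i) • u i`; expand by linearity of `T.T t` (`map_add`, `map_smul`; the map is
additive, so it commutes with finite sums) and of `inner` (conjugate linear in the first
variable). -/
def StPOF : Prop := StPOS → ∀ (H : Type) [NormedAddCommGroup H] [InnerProductSpace ℂ H]
  (T : CSG H) (N : ℕ) (u : Fin N → H) (f : ℝ≥0 × Fin N →₀ ℂ),
  0 ≤ (f.sum fun x a => f.sum fun y b => (starRingEnd ℂ) a * b *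
    inner ℂ (T.T (x.1 - y.1) (u x.2)) (T.T (y.1 - x.1) (u y.2))).re

/-- MODULE ISO (80 lines).  `A` has a Hilbert basis (`exists_hilbertBasis`) indexed by a countable
set `w` (an orthonormal family in a separable space is countable: its members have pairwise
distance `√2`); `B` contains an orthonormal family indexed by `ℕ` (the index set of a Hilbert basis
of `B` is infinite, otherwise `B` would be finite-dimensional).  Choose an injection `w → ℕ`; the
linear isometry is `b.repr` followed by `OrthogonalFamily.linearIsometry` of the orthonormal family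
(`Orthonormal.orthogonalFamily`). -/
def StISO : Prop := ∀ (A B : Type) [NormedAddCommGroup A] [InnerProductSpace ℂ A] [CompleteSpace A]
  [NormedAddCommGroup B] [InnerProductSpace ℂ B] [CompleteSpace B],
  TopologicalSpace.SeparableSpace A → ¬ FiniteDimensional ℂ B → Nonempty (A →ₗᵢ[ℂ] B)

/-- MODULE EMB (100 lines).  Let `F = span (range v)` (finite-dimensional, closed), `φ : F → H` the
linear isometry with `φ (v i) = u i` given by EXT (the topological closure of `F` is `F`), `F'` its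
image, a finite-dimensional subspace.  `Fᗮ` is separable and complete, `F'ᗮ` is complete and not
finite-dimensional.  ISO gives `ψ : Fᗮ → F'ᗮ`.  Put `W x = φ (P x) + ψ (x - P x)`, `P` the orthogonal
projection on `F`; it is linear and isometric (Pythagoras on both sides). -/
def StEMB : Prop := StEXT → StISO → ∀ (K H : Type) [NormedAddCommGroup K] [InnerProductSpace ℂ K]
  [CompleteSpace K] [NormedAddCommGroup H] [InnerProductSpace ℂ H] [CompleteSpace H],
  TopologicalSpace.SeparableSpace K → ¬ FiniteDimensional ℂ H → ∀ (N : ℕ) (v : Fin N → K)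
  (u : Fin N → H), (∀ i j, inner ℂ (v i) (v j) = inner ℂ (u i) (u j)) →
  ∃ W : K →ₗᵢ[ℂ] H, ∀ i, W (v i) = u i

/-- MODULE CO (40 lines).  `‖e s‖^2 = ‖u‖^2` (`s = t`), and for `s ≤ t`
`‖e s - e t‖^2 = 2 ‖u‖^2 - 2 re inner u (T (t - s) u) = 2 re inner u (u - T (t - s) u)
≤ 2 ‖u‖ ‖u - T (t - s) u‖`; in general with `|s - t|` (`(s - t) + (t - s)`), and this tends to `0` as
`t → s` by `T.cont u`, `T 0 u = u`. -/
def StCO : Prop := ∀ (H K : Type) [NormedAddCommGroup H] [InnerProductSpace ℂ H]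
  [NormedAddCommGroup K] [InnerProductSpace ℂ K] (T : CSG H) (u : H) (e : ℝ≥0 → K),
  (∀ s t, inner ℂ (e s) (e t) = inner ℂ (T.T (s - t) u) (T.T (t - s) u)) → Continuous e

/-- MODULE XI (100 lines).  By POF and GNS there is a Hilbert space `K` with vectors `e (s, i)` of the
prescribed Gram matrix (hermitian: `inner_conj_symm`).  By CO every `s ↦ e (s, i)` is continuous, so
the range of `e` is separable (`ℝ≥0` is separable, `Fin N` finite), hence the closure `M` of its span
is a separable Hilbert space.  Apply EMB to `M`, `v i = e (0, i)`, `u i` (the Gram matrices agree as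
`T 0 = id`) and put `ξ s i = W (e (s, i))`. -/
def StXI : Prop := StEXT → StISO → StEMB → StGNS → StPOS → StPOF → StCO →
  ∀ (H : Type) [NormedAddCommGroup H] [InnerProductSpace ℂ H]
  [CompleteSpace H], ¬ FiniteDimensional ℂ H → ∀ (T : CSG H) (N : ℕ) (u : Fin N → H),
  ∃ ξ : ℝ≥0 → Fin N → H, (∀ s t i j, inner ℂ (ξ s i) (ξ t j) =
    inner ℂ (T.T (s - t) (u i)) (T.T (t - s) (u j))) ∧ ∀ i, ξ 0 i = u i

/-- MODULE SH (130 lines).  Let `M` be the closure of the span of all `ξ s i`.  EXT (index set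
`ℝ≥0 × ι`, `e (s,i) = ξ s i`, `e' (s,i) = ξ (s + r) i`) gives a linear isometry `L r : M → H`; its
values lie in `M` (closed).  Put `V r x = L r (P x) + (x - P x)`, `P` the orthogonal projection on
`M`.  Linear, isometric (`L r (P x) ∈ M` is orthogonal to `x - P x`), `V 0 = id` and
`V (s + r) = V s (V r)` (both sides agree on the vectors `ξ s i`, hence on `M` by linearity and
continuity), strongly continuous: for `x = ξ s i` by hypothesis, for finite sums clearly, for all
of `M` because `‖V r‖ ≤ 1`. -/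
def StSH : Prop := StEXT → ∀ (H : Type) [NormedAddCommGroup H] [InnerProductSpace ℂ H]
  [CompleteSpace H] (ι : Type) (ξ : ℝ≥0 → ι → H),
  (∀ r s t i j, inner ℂ (ξ (s + r) i) (ξ (t + r) j) = inner ℂ (ξ s i) (ξ t j)) →
  (∀ i, Continuous fun s => ξ s i) →
  ∃ V : CSG H, (∀ t x, ‖V.T t x‖ = ‖x‖) ∧ ∀ r s i, V.T r (ξ s i) = ξ (s + r) i

/-- MODULE DI (40 lines).  `XI` and `SH` with `ι = Fin N` (`(s + r) - (t + r) = s - t`; continuity by
CO with `e s = ξ s i`).  Then `V t (u i) = V t (ξ 0 i) = ξ t i` and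
`inner (ξ t i) (ξ 0 j) = inner (T t (u i)) (T 0 (u j))`.  The hypothesis `hXI` is the conclusion of
module XI, `hSH` that of module SH. -/
def StDI : Prop :=
  (∀ (H : Type) [NormedAddCommGroup H] [InnerProductSpace ℂ H]
    [CompleteSpace H], ¬ FiniteDimensional ℂ H → ∀ (T : CSG H) (N : ℕ) (u : Fin N → H),
    ∃ ξ : ℝ≥0 → Fin N → H, (∀ s t i j, inner ℂ (ξ s i) (ξ t j) =
      inner ℂ (T.T (s - t) (u i)) (T.T (t - s) (u j))) ∧ ∀ i, ξ 0 i = u i) →
  (∀ (H : Type) [NormedAddCommGroup H] [InnerProductSpace ℂ H]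
    [CompleteSpace H] (ι : Type) (ξ : ℝ≥0 → ι → H),
    (∀ r s t i j, inner ℂ (ξ (s + r) i) (ξ (t + r) j) = inner ℂ (ξ s i) (ξ t j)) →
    (∀ i, Continuous fun s => ξ s i) →
    ∃ V : CSG H, (∀ t x, ‖V.T t x‖ = ‖x‖) ∧ ∀ r s i, V.T r (ξ s i) = ξ (s + r) i) →
  StCO →
  ∀ (H : Type) [NormedAddCommGroup H] [InnerProductSpace ℂ H] [CompleteSpace H],
    ¬ FiniteDimensional ℂ H → ∀ (T : CSG H) (N : ℕ) (u : Fin N → H),
    ∃ V : CSG H, (∀ t x, ‖V.T t x‖ = ‖x‖) ∧
      ∀ t i j, inner ℂ (V.T t (u i)) (u j) = inner ℂ (T.T t (u i)) (u j)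

/-- MODULE DM (120 lines).  Elementary facts on `dd`.  Every `‖inner (T t x_i - S t x_i) x_j‖` is at
most `2 ‖x_i‖ ‖x_j‖`, so the suprema are over bounded sets and each summand is between `0` and
`2 (1/2)^(n+i+j+3)`: summable (product of three geometric series).  (1) nonnegative, (2) symmetric,
(3) triangle inequality, (4) `dd x T T = 0`, (5) a single value is bounded by the corresponding
summand, which is at most the sum; (6) if all the values with `n, i, j < N` and `t ≤ N` are at most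
`δ`, the summands with `n, i, j < N` are at most `δ C_N` and the others have a small sum. -/
def StDM : Prop := ∀ (H : Type) [NormedAddCommGroup H] [InnerProductSpace ℂ H] (x : ℕ → H),
  (∀ j, x j ≠ 0) →
  (∀ T S : CSG H, 0 ≤ dd x T S) ∧ (∀ T S : CSG H, dd x T S = dd x S T) ∧
  (∀ T S R : CSG H, dd x T R ≤ dd x T S + dd x S R) ∧ (∀ T : CSG H, dd x T T = 0) ∧
  (∀ (T S : CSG H) (n i j : ℕ) (t : ℝ≥0), t ≤ (n : ℝ≥0) →
    ‖inner ℂ (T.T t (x i) - S.T t (x i)) (x j)‖ ≤
      2 ^ (n + i + j + 3) * (‖x i‖ * ‖x j‖) * dd x T S) ∧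
  (∀ ε : ℝ, 0 < ε → ∃ (N : ℕ) (δ : ℝ), 0 < δ ∧ ∀ T S : CSG H,
    (∀ t : ℝ≥0, t ≤ (N : ℝ≥0) → ∀ i < N, ∀ j < N,
      ‖inner ℂ (T.T t (x i) - S.T t (x i)) (x j)‖ ≤ δ) → dd x T S < ε)

/-- MODULE LS (80 lines).  `K = {V t (x i) : t ≤ m, i ≤ m}` is compact; choose finitely many `j` such
that every point of `K` is within `η` of some `x j` (`hd`; `η` small).  For `t ≤ m`, `i ≤ m` and `j`
with `‖V t (x i) - x j‖ ≤ η`:
`‖V t x_i - W t x_i‖^2 = 2 ‖x_i‖^2 - 2 re inner (W t x_i) (V t x_i)
= 2 re inner (V t x_i - W t x_i) (V t x_i)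
≤ 2 ‖inner (V t x_i - W t x_i) (x j)‖ + 4 ‖x_i‖ η` (as `‖V t x_i‖ = ‖W t x_i‖ = ‖x_i‖`), and the first
term is at most `2^(m+i+j+4) ‖x_i‖ ‖x_j‖ dd x V W` by (5) of DM. -/
def StLS : Prop := StDM → ∀ (H : Type) [NormedAddCommGroup H] [InnerProductSpace ℂ H]
  (x : ℕ → H), (∀ j, x j ≠ 0) → DenseRange x →
  ∀ (V : CSG H), (∀ t y, ‖V.T t y‖ = ‖y‖) → ∀ (m : ℕ) (δ : ℝ), 0 < δ →
  ∃ r : ℝ, 0 < r ∧ ∀ W : CSG H, (∀ t y, ‖W.T t y‖ = ‖y‖) → dd x V W < r →
    ∀ i ≤ m, ∀ t : ℝ≥0, t ≤ (m : ℝ≥0) → ‖V.T t (x i) - W.T t (x i)‖ ≤ δ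

/-- MODULE LC (130 lines).  For fixed `t`, `i` the sequence `V m t (x i)` is Cauchy, uniformly for
`t ≤ n`.  By density and `‖V m t y‖ = ‖y‖` the sequence `V m t y` is Cauchy for every `y`, uniformly for
`t ≤ n`; `W t y` := its limit.  `W t` is linear and isometric, `W 0 = id`,
`V m s (V m t y) - W s (W t y) = V m s (V m t y - W t y) + (V m s - W s) (W t y) → 0` gives the
semigroup law, and `t ↦ W t y` is continuous as a locally uniform limit. -/
def StLC : Prop := ∀ (H : Type) [NormedAddCommGroup H] [InnerProductSpace ℂ H]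
  [CompleteSpace H] (x : ℕ → H), DenseRange x → ∀ V : ℕ → CSG H,
  (∀ m t y, ‖(V m).T t y‖ = ‖y‖) →
  (∀ m : ℕ, ∀ i ≤ m, ∀ t : ℝ≥0, t ≤ (m : ℝ≥0) →
    ‖(V m).T t (x i) - (V (m + 1)).T t (x i)‖ ≤ (1 / 2 : ℝ) ^ m) →
  ∃ W : CSG H, (∀ t y, ‖W.T t y‖ = ‖y‖) ∧ ∀ (i n : ℕ) (ε : ℝ), 0 < ε → ∃ M : ℕ, ∀ m ≥ M,
    ∀ t : ℝ≥0, t ≤ (n : ℝ≥0) → ‖(V m).T t (x i) - W.T t (x i)‖ ≤ ε

end Pool.Agent.Helper9.BS
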